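import Pool.Agent.X19.SS.Stm3

set_option autoImplicit false

/-! Existence of the Moore-Penrose inverse of a matrix over `ℝ` or `ℂ` (after `Pool.Agent.H321R2.OSI`). -/

namespace Pool.Agent.X28.SS

open Matrix
open scoped Matrix ComplexOrder

theorem t_MP : Pool.Agent.X19.SS.S_MP := by
  intro K _ m n M
  have hH : (Mᴴ * M).IsHermitian := isHermitian_conjTranspose_mul_self M
  set H := Mᴴ * M with hHdef
  set U : Matrix (Fin n) (Fin n) K := (hH.eigenvectorUnitary : Matrix (Fin n) (Fin n) K) with hU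
  set L := hH.eigenvalues with hL
  have hUU : Uᴴ * U = 1 := by
    have := (Matrix.mem_unitaryGroup_iff').1 hH.eigenvectorUnitary.2
    simpa [Matrix.star_eq_conjTranspose] using this
  have hspec : H = U * diagonal (fun i => (L i : K)) * Uᴴ := by
    have := hH.spectral_theorem
    simpa [Unitary.conjStarAlgAut_apply, Matrix.star_eq_conjTranspose, Function.comp_def] using this
  set G := U * diagonal (fun i => (((L i)⁻¹ : ℝ) : K)) * Uᴴ with hG
  have mul3 : ∀ a b : Fin n → ℝ, (U * diagonal (fun i => (a i : K)) * Uᴴ) * (U * diagonal (fun i => (b i : K)) * Uᴴ)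
      = U * diagonal (fun i => ((a i * b i : ℝ) : K)) * Uᴴ := by
    intro a b
    calc (U * diagonal (fun i => (a i : K)) * Uᴴ) * (U * diagonal (fun i => (b i : K)) * Uᴴ)
        = U * diagonal (fun i => (a i : K)) * (Uᴴ * U) * diagonal (fun i => (b i : K)) * Uᴴ := by
          simp only [Matrix.mul_assoc]
      _ = U * diagonal (fun i => ((a i * b i : ℝ) : K)) * Uᴴ := by
        rw [hUU, Matrix.mul_one, Matrix.mul_assoc U, diagonal_mul_diagonal]
        simp only [RCLike.ofReal_mul]
  have symm3 : ∀ a : Fin n → ℝ, (U * diagonal (fun i => (a i : K)) * Uᴴ)ᴴ = U * diagonal (fun i => (a i : K)) * Uᴴ := by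
    intro a
    have hd : (diagonal (fun i => (a i : K)))ᴴ = diagonal (fun i => (a i : K)) := by
      rw [diagonal_conjTranspose]
      congr 1
      funext i
      simp
    simp only [Matrix.conjTranspose_mul, Matrix.conjTranspose_conjTranspose, hd, Matrix.mul_assoc]
  have hGH : G * H = U * diagonal (fun i => (((L i)⁻¹ * L i : ℝ) : K)) * Uᴴ := by
    rw [hspec]; exact mul3 _ _
  have hHG : H * G = U * diagonal (fun i => ((L i * (L i)⁻¹ : ℝ) : K)) * Uᴴ := by
    rw [hspec]; exact mul3 _ _
  have hHGH : H * G * H = H := by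
    rw [hHG, hspec, mul3]
    congr 2
    congr 1
    ext i
    rcases eq_or_ne (L i) 0 with h | h
    · simp [h]
    · congr 1
      field_simp
  have hGHG : G * H * G = G := by
    rw [hGH, hG, mul3]
    congr 2
    congr 1
    ext i
    rcases eq_or_ne (L i) 0 with h | h
    · simp [h]
    · congr 1
      field_simp
  have hGT : Gᴴ = G := symm3 _
  have hGHT : (G * H)ᴴ = G * H := by rw [hGH]; exact symm3 _
  have hZ : M * (G * H) = M := by
    have h0 : H * (G * H - 1) = 0 := by
      rw [Matrix.mul_sub, Matrix.mul_one, ← Matrix.mul_assoc H G H, hHGH, sub_self]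
    have h1 : (M * (G * H - 1))ᴴ * (M * (G * H - 1)) = 0 := by
      generalize G * H - 1 = Z at h0
      calc (M * Z)ᴴ * (M * Z)
          = Zᴴ * ((Mᴴ * M) * Z) := by
            rw [Matrix.conjTranspose_mul]; simp only [Matrix.mul_assoc]
        _ = 0 := by
            rw [← hHdef, h0, Matrix.mul_zero]
    have h2 : M * (G * H - 1) = 0 := (Matrix.conjTranspose_mul_self_eq_zero (A := M * (G * H - 1))).1 h1
    rw [Matrix.mul_sub, Matrix.mul_one, sub_eq_zero] at h2
    exact h2
  refine ⟨G * Mᴴ, ?_, ?_, ?_, ?_⟩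
  · calc M * (G * Mᴴ) * M = M * (G * H) := by rw [hHdef]; simp only [Matrix.mul_assoc]
      _ = M := hZ
  · calc G * Mᴴ * M * (G * Mᴴ) = (G * H * G) * Mᴴ := by rw [hHdef]; simp only [Matrix.mul_assoc]
      _ = G * Mᴴ := by rw [hGHG]
  · simp only [Matrix.conjTranspose_mul, Matrix.conjTranspose_conjTranspose, hGT, Matrix.mul_assoc]
  · calc (G * Mᴴ * M)ᴴ = (G * H)ᴴ := by rw [hHdef]; simp only [Matrix.mul_assoc]
      _ = G * H := hGHT
      _ = G * Mᴴ * M := by rw [hHdef]; simp only [Matrix.mul_assoc]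

end Pool.Agent.X28.SS
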